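import Mathlib
import Pool.Agent.Lib.H3C.L7

/-!
# MP_f225a9_lc: Thomas's conjecture holds for all homogeneous coloured linear orders
-/

set_option autoImplicit false

namespace Pool.Agent.Results.MP_f225a9_lc.ColoredOrders

open FirstOrder

/-- **Thomas's conjecture for homogeneous coloured linear orders.**  Let `L` be a finite relational
language, `lt` a binary relation symbol of `L` all whose other symbols have arity at most one, and `M`
a countable ultrahomogeneous `L`-structure in which `lt` is a strict linear order.  Then `M` has only
finitely many reducts up to interdefinability (in the formulation of the frozen statement). -/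
theorem result (L : FirstOrder.Language.{0, 0}) (M : Type) [L.Structure M]
    (hM : Countable M) (hL : L.IsRelational) (hfin : Finite (Σ n, L.Relations n))
    (hu : L.IsUltrahomogeneous M) (lt : L.Relations 2)
    (hlt : IsStrictTotalOrder M (fun x y => FirstOrder.Language.Structure.RelMap lt ![x, y]))
    (hother : ∀ (n : ℕ) (r : L.Relations n),
      n ≤ 1 ∨ (⟨n, r⟩ : Σ n, L.Relations n) = ⟨2, lt⟩) :
    Set.Finite {D : Set (Σ n : ℕ, Set (Fin n → M)) |
      ∃ (L' : FirstOrder.Language.{0, 0}) (inst' : L'.Structure M), L'.IsRelational ∧
        (∀ (n : ℕ) (r : L'.Relations n),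
          (∅ : Set M).Definable L (setOf (FirstOrder.Language.Structure.RelMap r))) ∧
        D = {p : Σ n : ℕ, Set (Fin n → M) | (∅ : Set M).Definable L' p.2}} :=
  Pool.Agent.Lib.H3C.thomas_coloured_orders L M hM hL hfin hu lt hlt hother

end Pool.Agent.Results.MP_f225a9_lc.ColoredOrders
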