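import Mathlib
import Pool.Agent.Lib.H3U.X1

/-!
# MP_f225a9_lc: Thomas's conjecture holds for all homogeneous structures with uniform amalgamation
-/

set_option autoImplicit false

namespace Pool.Agent.Results.MP_f225a9_lc.UniformAmalgamation

open FirstOrder

/-- The 1-type of a point: the set of the relation symbols which hold at the constant tuple. -/
def oneType (L : FirstOrder.Language.{0, 0}) {A : Type} [L.Structure A] (a : A) :
    Set (Σ n, L.Relations n) :=
  {s | FirstOrder.Language.Structure.RelMap s.2 (fun _ => a)}

/-- **Thomas's conjecture for structures with uniform amalgamation.**  Let `L` be a finite relational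
language and `M` a countable ultrahomogeneous `L`-structure.  Let `δ` be default values: `δ n r`
says, for an order pattern and 1-types of `n` points, whether the symbol `r` holds.  Suppose that a
finite `L`-structure `A` with a linear order, which is the union of two substructures `X`, `Y` such
that all tuples contained neither in `X` nor in `Y` have the default values, embeds in `M` as soon as
`X` and `Y` do; here the 1-types of the points outside of `X ∩ Y` are realised at least twice in `M`.
Then `M` has only finitely many reducts up to interdefinability (in the formulation of the frozen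
statement). -/
theorem result (L : FirstOrder.Language.{0, 0}) (M : Type) [L.Structure M]
    (hM : Countable M) (hL : L.IsRelational) (hfin : Finite (Σ n, L.Relations n))
    (hu : L.IsUltrahomogeneous M)
    (δ : ∀ n, L.Relations n → (Fin n → Fin n → Prop) → (Fin n → Set (Σ n, L.Relations n)) → Prop)
    (hage : ∀ (A : Type) [L.Structure A] [LinearOrder A] (X Y : L.Substructure A), Finite A →
      (∀ a, a ∈ X ∨ a ∈ Y) →
      (∀ (n : ℕ) (r : L.Relations n) (t : Fin n → A), (¬ ∀ i, t i ∈ X) → (¬ ∀ i, t i ∈ Y) →
        (FirstOrder.Language.Structure.RelMap r t ↔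
          δ n r (fun i j => t i < t j) (fun i => oneType L (t i)))) →
      (∀ a, (a ∉ X ∨ a ∉ Y) →
        ∃ x y : M, x ≠ y ∧ oneType L x = oneType L a ∧ oneType L y = oneType L a) →
      Nonempty (X ↪[L] M) → Nonempty (Y ↪[L] M) → Nonempty (A ↪[L] M)) :
    Set.Finite {D : Set (Σ n : ℕ, Set (Fin n → M)) |
      ∃ (L' : FirstOrder.Language.{0, 0}) (inst' : L'.Structure M), L'.IsRelational ∧
        (∀ (n : ℕ) (r : L'.Relations n),
          (∅ : Set M).Definable L (setOf (FirstOrder.Language.Structure.RelMap r))) ∧
        D = {p : Σ n : ℕ, Set (Fin n → M) | (∅ : Set M).Definable L' p.2}} :=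
  Pool.Agent.Lib.H3U.thomas_uniform L M hM hL hfin hu δ hage

/-- Special case: the age has free amalgamation (any arity, with named points). -/
theorem free_amalgamation (L : FirstOrder.Language.{0, 0}) (M : Type) [L.Structure M]
    (hM : Countable M) (hL : L.IsRelational) (hfin : Finite (Σ n, L.Relations n))
    (hu : L.IsUltrahomogeneous M)
    (hage : ∀ (A : Type) [L.Structure A] (X Y : L.Substructure A), Finite A →
      (∀ a, a ∈ X ∨ a ∈ Y) →
      (∀ (n : ℕ) (r : L.Relations n) (t : Fin n → A),
        FirstOrder.Language.Structure.RelMap r t → (∀ i, t i ∈ X) ∨ ∀ i, t i ∈ Y) →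
      (∀ a, (a ∉ X ∨ a ∉ Y) →
        ∃ x y : M, x ≠ y ∧ oneType L x = oneType L a ∧ oneType L y = oneType L a) →
      Nonempty (X ↪[L] M) → Nonempty (Y ↪[L] M) → Nonempty (A ↪[L] M)) :
    Set.Finite {D : Set (Σ n : ℕ, Set (Fin n → M)) |
      ∃ (L' : FirstOrder.Language.{0, 0}) (inst' : L'.Structure M), L'.IsRelational ∧
        (∀ (n : ℕ) (r : L'.Relations n),
          (∅ : Set M).Definable L (setOf (FirstOrder.Language.Structure.RelMap r))) ∧
        D = {p : Σ n : ℕ, Set (Fin n → M) | (∅ : Set M).Definable L' p.2}} :=
  result L M hM hL hfin hu (fun _ _ _ _ => False) (Pool.Agent.Lib.H3U.ual_of_fal L M hage)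

/-- Special case: random binary structures (the earlier hand-in `RandomBinary`). -/
theorem random_binary (L : FirstOrder.Language.{0, 0}) (M : Type) [L.Structure M]
    (hM : Countable M) (hL : L.IsRelational) (hfin : Finite (Σ n, L.Relations n))
    (hu : L.IsUltrahomogeneous M) (h2 : ∀ (n : ℕ) (_ : L.Relations n), n ≤ 2)
    (hage : ∀ (A : Type) [L.Structure A], Finite A →
      (∀ S : L.Substructure A, Nat.card S ≤ 2 → Nonempty (S ↪[L] M)) → Nonempty (A ↪[L] M)) :
    Set.Finite {D : Set (Σ n : ℕ, Set (Fin n → M)) |
      ∃ (L' : FirstOrder.Language.{0, 0}) (inst' : L'.Structure M), L'.IsRelational ∧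
        (∀ (n : ℕ) (r : L'.Relations n),
          (∅ : Set M).Definable L (setOf (FirstOrder.Language.Structure.RelMap r))) ∧
        D = {p : Σ n : ℕ, Set (Fin n → M) | (∅ : Set M).Definable L' p.2}} := by
  obtain ⟨δ, hδ⟩ := Pool.Agent.Lib.H3U.ual_of_binary L hL h2 M hage
  exact result L M hM hL hfin hu δ hδ

end Pool.Agent.Results.MP_f225a9_lc.UniformAmalgamation
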